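import Mathlib
import Pool.Agent.Lib.MP_904b92_lc.Count

open FirstOrder CategoryTheory

namespace Pool.Agent.Results.MP_904b92_lc.NotMCFinite

/-- An integer sequence is MC-finite if modulo every `m ≥ 1` it eventually satisfies a linear
recurrence with constant integer coefficients. -/
def MCFinite (s : ℕ → ℤ) : Prop :=
  ∀ m : ℕ, 1 ≤ m → ∃ r p : ℕ, 1 ≤ r ∧ 1 ≤ p ∧ ∃ α : Fin p → ℤ,
    ∀ n : ℕ, r ≤ n → s (n + p) ≡ ∑ i : Fin p, α i * s (n + (i : ℕ)) [ZMOD (m : ℤ)]

/-- The number of labelled `L`-structures with universe `Fin n` that belong to the class `K`. -/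
noncomputable def Sp {L : FirstOrder.Language.{0, 0}} (K : Set (Bundled.{0} L.Structure)) (n : ℕ) : ℕ :=
  Nat.card {A : L.Structure (Fin n) // (⟨Fin n, A⟩ : Bundled.{0} L.Structure) ∈ K}

/-- For the vocabulary with one binary relation symbol there is a class of finite nonempty
structures (all of them simple graphs), closed under isomorphism and under nonempty induced
substructures, whose labelled counting function is not MC-finite. -/
theorem result : ∃ K : Set (Bundled.{0} Language.graph.Structure),
    (∀ M ∈ K, Finite M ∧ Nonempty M ∧ M ⊨ Language.Theory.simpleGraph) ∧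
    (∀ M ∈ K, ∀ N : Bundled.{0} Language.graph.Structure,
      Nonempty (M ≃[Language.graph] N) → N ∈ K) ∧
    (∀ M ∈ K, ∀ U : Language.graph.Substructure M, Nonempty U →
      (⟨U, inferInstance⟩ : Bundled.{0} Language.graph.Structure) ∈ K) ∧
    ¬ MCFinite (fun n => (Sp K n : ℤ)) := by
  obtain ⟨S, hS⟩ := Lib.MP_904b92_lc.exists_not_recur
  let K : Set (Bundled.{0} Language.graph.Structure) := {M | Finite M ∧ Nonempty M ∧
    Lib.MP_904b92_lc.Good S (fun x y : M => Language.Structure.RelMap Language.adj ![x, y])}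
  have hemb : ∀ M ∈ K, ∀ N : Bundled.{0} Language.graph.Structure, Nonempty N →
      (N ↪[Language.graph] M) → N ∈ K := by
    rintro M ⟨h1, -, h3⟩ N hN f
    refine ⟨Finite.of_injective f f.injective, hN, h3.comap f f.injective fun x y => ?_⟩
    rw [← f.map_rel]
    congr! 1
    funext i
    fin_cases i <;> rfl
  refine ⟨K, ?_, ?_, ?_, ?_⟩
  · rintro M ⟨h1, h2, h3⟩
    refine ⟨h1, h2, ?_⟩
    rw [Language.Theory.simpleGraph_model_iff]
    exact ⟨⟨h3.1⟩, ⟨h3.2.1⟩⟩
  · rintro M hM N ⟨e⟩
    exact hemb M hM N (hM.2.1.map e) e.symm.toEmbedding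
  · intro M hM U hU
    exact hemb M hM ⟨U, inferInstance⟩ hU U.subtype
  · intro h
    apply hS
    have hSp : ∀ n, Sp K (n + 1) = Lib.MP_904b92_lc.cnt S (Fin (n + 1)) := by
      intro n
      let st : (Fin (n + 1) → Fin (n + 1) → Prop) → Language.graph.Structure (Fin (n + 1)) :=
        fun R => { funMap := fun f => f.elim
                   RelMap := fun r => match r with | .adj => fun v => R (v 0) (v 1) }
      refine Nat.card_congr ⟨fun A => ⟨fun x y =>
        @Language.Structure.RelMap _ _ A.1 _ Language.adj ![x, y], A.2.2.2⟩,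
        fun R => ⟨st R.1, (inferInstance : Finite (Fin (n + 1))),
          (inferInstance : Nonempty (Fin (n + 1))), R.2⟩, ?_, fun R => rfl⟩
      intro A
      apply Subtype.ext
      ext k r v
      · exact r.elim
      · cases r
        change @Language.Structure.RelMap _ _ A.1 _ Language.adj ![v 0, v 1] ↔
          @Language.Structure.RelMap _ _ A.1 _ Language.adj v
        congr! 1
        funext i
        fin_cases i <;> rfl
    obtain ⟨r, p, -, -, α, hα⟩ := h 2 (by norm_num)
    refine ⟨r, p, α, fun n hn => ?_⟩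
    have h1 := (ZMod.intCast_eq_intCast_iff _ _ 2).mpr (hα (n + 1) (by omega))
    push_cast at h1
    have e1 : n + 1 + p = n + p + 1 := by ring
    have e2 : ∀ i : Fin p, n + 1 + (i : ℕ) = n + i + 1 := fun i => by ring
    simp only [e1, e2, hSp] at h1
    exact h1

end Pool.Agent.Results.MP_904b92_lc.NotMCFinite
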